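import Pool.Agent.Q88.MK.Stm
import Pool.Agent.Q210.MK_SCL
import Pool.Agent.Q210.MK_DER
import Pool.Agent.Q265.MK_MVT
import Pool.Agent.Q130.MK_STA
import Pool.Agent.Q184.MK.STE
import Pool.Agent.Q129.MK_CHA
import Pool.Agent.Q177.MK_FIN
import Pool.Agent.Q186.MK.PSG
import Pool.Agent.Q217.MK.OPR
import Pool.Agent.Q256.MK_MZ
import Pool.Agent.Q263.MK_THK
import Pool.Agent.Q217.MK.LOC
import Pool.Agent.Q192.MK_DEN
import Pool.Agent.Q121.MK_TEL
import Pool.Agent.Q144.MK_SET
import Pool.Agent.Q184.MK.CHO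

/-!
# The Markov inequality fails for every cusp with irrational exponent

Let `σ > 1` be irrational and `p > σ`. There are polynomials `Q k` with `Q k (0, 0) = 1`, `|Q k| ≤ 1` on
`X = {x ^ σ ≤ y ≤ x ^ σ + x ^ p}` and `|Q k| ≤ δ k / (2 x)` for `x ≥ δ k`, where
`Q (k+1) (x, y) = Q k (x, y) ^ N * F (x / δ k, y / δ k ^ σ)` and `δ (k+1) = ρ δ k`. On the curve `y = x ^ σ`
the polynomial `F` is the probability that a sum of independent exponential variables with rates
`i + j σ` is at most `log (1 / x)`. Since these rates get arbitrarily dense, `1 / ρ` can be larger than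
every given power of `N + 1`, the growth factor of the degree.
-/

set_option autoImplicit false

open Set MvPolynomial

noncomputable section

namespace Pool.Agent.Results.MP_bd9c87_an.IrrationalCusps

/-- Real polynomials in two variables. -/
abbrev Pol := MvPolynomial (Fin 2) ℝ

/-- The value of `P` at the point `(x, y)`. -/
def ev (P : Pol) (x y : ℝ) : ℝ := MvPolynomial.eval ![x, y] P

/-- The Euclidean norm of the gradient of `P` at the point `z`. -/
def gradNorm (P : Pol) (z : ℝ × ℝ) : ℝ :=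
  Real.sqrt (ev (MvPolynomial.pderiv 0 P) z.1 z.2 ^ 2 + ev (MvPolynomial.pderiv 1 P) z.1 z.2 ^ 2)

/-- The cusp `X = {(x, y) : x ∈ [0, 1], x ^ σ ≤ y ≤ x ^ σ + x ^ p}`. -/
def cusp (σ p : ℝ) : Set (ℝ × ℝ) :=
  {z | z.1 ∈ Icc (0 : ℝ) 1 ∧ z.1 ^ σ ≤ z.2 ∧ z.2 ≤ z.1 ^ σ + z.1 ^ p}

/-- The Markov inequality for the compact set `K`: `sup |∇P| ≤ C (deg P) ^ r sup |P|` on `K` for all
polynomials `P` (for polynomials of degree `0` the power is `0 ^ r = 0`). -/
def Markov (K : Set (ℝ × ℝ)) : Prop :=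
  ∃ C r : ℝ, 0 < C ∧ 0 < r ∧ ∀ P : Pol,
    sSup (gradNorm P '' K) ≤ C * (P.totalDegree : ℝ) ^ r * sSup ((fun z => |ev P z.1 z.2|) '' K)

/-- **Theorem.** For every irrational `σ > 1` and every `p > σ` the cusp does not satisfy the Markov
inequality. -/
theorem result : ∀ σ p : ℝ, Irrational σ → 1 < σ → σ < p → ¬ Markov (cusp σ p) := by
  have scl := Pool.Agent.Q210.MK_SCL.scl
  have der := Pool.Agent.Q210.MK_DER.der
  have mvt := Pool.Agent.Q265.MK.mvt der
  have bdd := Pool.Agent.Q265.MK.bdd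
  have sta := Pool.Agent.Q130.MK.sta
  have ste := Pool.Agent.Q88.MK.ste scl
  have cha := Pool.Agent.Q129.MK.cha sta ste
  have fin := Pool.Agent.Q177.MK.fin mvt bdd cha
  have pol := Pool.Agent.Q186.MK.pol
  have opr := Pool.Agent.Q217.MK.opr
  have sum1 := Pool.Agent.Q186.MK.sum1
  have mz := Pool.Agent.Q256.MK.mz opr sum1
  have mo := Pool.Agent.Q256.MK.mo opr sum1 mz
  have thk := Pool.Agent.Q88.MK.thk
  have grw := Pool.Agent.Q186.MK.grw
  have loc := Pool.Agent.Q217.MK.loc pol mo thk grw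
  have den := Pool.Agent.Q192.MK.den
  have tel := Pool.Agent.Q121.MK.tel
  have set1 := Pool.Agent.Q144.MKSET.set1 den tel
  have cho := Pool.Agent.Q88.MK.cho set1 loc
  exact Pool.Agent.Q88.MK.assemble fin cho

end Pool.Agent.Results.MP_bd9c87_an.IrrationalCusps
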